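import Mathlib

/-!
MP_e005ea_nt: integer solutions of `x^2 y + y^2 z + z^2 x = 1`. Each coordinate of absolute value at
least 2 bounds the next one by its square and the one before by the cube of its absolute value.
-/

namespace Pool.Agent.Results.MP_e005ea_nt.CoordinateBounds

/-- the factor `e = y^2 + x z` is at least `|x|` in absolute value -/
lemma e_ge {x y z : ℤ} (h : x ^ 2 * y + y ^ 2 * z + z ^ 2 * x = 1) (hx : 2 ≤ |x|) :
    |x| ≤ |y ^ 2 + x * z| := by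
  obtain ⟨e, he⟩ : ∃ e, e = y ^ 2 + x * z := ⟨_, rfl⟩
  rw [← he]
  have h1 : z * e = 1 - x ^ 2 * y := by rw [he]; linear_combination h
  have h2 : e * (e - y ^ 2) = x * (1 - x ^ 2 * y) := by
    have : e - y ^ 2 = x * z := by rw [he]; ring
    rw [this]
    linear_combination x * h1
  obtain ⟨f, hf⟩ : ∃ f, f = x ^ 3 - e * y := ⟨_, rfl⟩
  have h3 : f * y = x - e ^ 2 := by rw [hf]; linear_combination h2
  have h4 : f * (x ^ 3 - f) = e * (x - e ^ 2) := by
    have : x ^ 3 - f = e * y := by rw [hf]; ring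
    rw [this]
    linear_combination e * h3
  have hx1 : ¬ x ∣ 1 := by
    intro hd
    have := Int.isUnit_iff.mp (isUnit_of_dvd_one hd)
    rcases this with h | h <;> rw [h] at hx <;> norm_num at hx
  -- e ≠ 0
  have he0 : e ≠ 0 := by
    intro h0
    apply hx1
    refine ⟨x * y, ?_⟩
    rw [h0] at h1
    linear_combination (-1) * h1
  have hy0 : y ≠ 0 := by
    intro h0
    apply hx1
    refine ⟨z ^ 2, ?_⟩
    rw [h0] at h
    linear_combination (-1) * h
  -- f ≠ 0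
  have hf0 : f ≠ 0 := by
    intro h0
    rw [h0, zero_mul] at h3
    have hxe : x = e ^ 2 := by linarith
    have hd : e ∣ 1 := ⟨z + e ^ 3 * y, by
      have : x ^ 2 = e ^ 4 := by rw [hxe]; ring
      rw [this] at h1
      linear_combination (-1) * h1⟩
    have := Int.isUnit_iff.mp (isUnit_of_dvd_one hd)
    apply hx1
    rcases this with h | h <;> rw [hxe, h] <;> norm_num
  have hg0 : x ^ 3 - f ≠ 0 := by
    intro h0
    have : e * y = 0 := by rw [hf] at h0; linarith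
    rcases mul_eq_zero.mp this with h | h
    · exact he0 h
    · exact hy0 h
  -- |x|^3 - 1 ≤ |f| |x^3 - f|
  have h5 : |x| ^ 3 - 1 ≤ |e| ^ 3 + |x| * |e| := by
    have a1 : 1 ≤ |f| := Int.one_le_abs hf0
    have a2 : 1 ≤ |x ^ 3 - f| := Int.one_le_abs hg0
    have a3 : |x| ^ 3 ≤ |f| + |x ^ 3 - f| := by
      rw [← abs_pow]
      calc |x ^ 3| = |f + (x ^ 3 - f)| := by ring_nf
        _ ≤ |f| + |x ^ 3 - f| := abs_add_le _ _
    have a4 : |f| * |x ^ 3 - f| ≤ |e| ^ 3 + |x| * |e| := by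
      rw [← abs_mul, h4, abs_mul]
      have : |x - e ^ 2| ≤ |x| + |e| ^ 2 := by
        calc |x - e ^ 2| ≤ |x| + |e ^ 2| := abs_sub _ _
          _ = |x| + |e| ^ 2 := by rw [abs_pow]
      calc |e| * |x - e ^ 2| ≤ |e| * (|x| + |e| ^ 2) :=
            mul_le_mul_of_nonneg_left this (abs_nonneg e)
        _ = |e| ^ 3 + |x| * |e| := by ring
    nlinarith [mul_nonneg (sub_nonneg.mpr a1) (sub_nonneg.mpr a2)]
  by_contra hc
  push Not at hc
  have h6 : |e| ≤ |x| - 1 := by omega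
  have h7 : 0 ≤ |e| := abs_nonneg e
  have h8 : |e| ^ 3 ≤ (|x| - 1) ^ 3 := pow_le_pow_left₀ h7 h6 3
  have h9 : |x| * |e| ≤ |x| * (|x| - 1) := mul_le_mul_of_nonneg_left h6 (abs_nonneg x)
  nlinarith

/-- the bounds -/
lemma bounds {x y z : ℤ} (h : x ^ 2 * y + y ^ 2 * z + z ^ 2 * x = 1) (hx : 2 ≤ |x|) :
    |y| < x ^ 2 ∧ |z| < |x| ^ 3 := by
  have he := e_ge h hx
  obtain ⟨e, hee⟩ : ∃ e, e = y ^ 2 + x * z := ⟨_, rfl⟩
  rw [← hee] at he
  have h1 : z * e = 1 - x ^ 2 * y := by rw [hee]; linear_combination h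
  have hx1 : ¬ x ∣ 1 := by
    intro hd
    have := Int.isUnit_iff.mp (isUnit_of_dvd_one hd)
    rcases this with h | h <;> rw [h] at hx <;> norm_num at hx
  have hz0 : z ≠ 0 := by
    intro h0
    apply hx1
    refine ⟨x * y, ?_⟩
    rw [h0] at h
    linear_combination (-1) * h
  have b1 : 1 ≤ |z| := Int.one_le_abs hz0
  have hxx : x ^ 2 = |x| ^ 2 := (sq_abs x).symm
  have hyy : y ^ 2 = |y| ^ 2 := (sq_abs y).symm
  have hy0 : 0 ≤ |y| := abs_nonneg y
  -- |z| |e| ≤ x^2 |y| + 1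
  have b2 : |z| * |e| ≤ |x| ^ 2 * |y| + 1 := by
    rw [← abs_mul, h1]
    calc |1 - x ^ 2 * y| ≤ |(1 : ℤ)| + |x ^ 2 * y| := abs_sub _ _
      _ = |x| ^ 2 * |y| + 1 := by rw [abs_mul, abs_pow]; norm_num; ring
  -- y^2 ≤ |e| + |x| |z|
  have b3 : |y| ^ 2 ≤ |e| + |x| * |z| := by
    rw [← hyy]
    have : y ^ 2 = e - x * z := by rw [hee]; ring
    rw [this]
    calc e - x * z ≤ |e - x * z| := le_abs_self _
      _ ≤ |e| + |x * z| := abs_sub _ _
      _ = |e| + |x| * |z| := by rw [abs_mul]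
  -- (|z| - 1)(|e| - |x|) ≥ 0
  have b4 : |y| ^ 2 ≤ |x| ^ 2 * |y| + 1 + |x| := by
    nlinarith [mul_nonneg (sub_nonneg.mpr b1) (sub_nonneg.mpr he)]
  have b5 : |y| ≤ |x| ^ 2 := by
    by_contra hc
    push Not at hc
    nlinarith
  have b6 : |y| < |x| ^ 2 := by
    rcases lt_or_eq_of_le b5 with h | h'
    · exact h
    · exfalso
      rw [← hxx] at h'
      have hd : x ∣ y := by
        rw [← dvd_abs, h']
        exact dvd_pow_self x (by norm_num)
      apply hx1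
      rw [← h]
      have d1 : x ∣ x ^ 2 * y := Dvd.dvd.mul_left hd _
      have d2 : x ∣ y ^ 2 * z := Dvd.dvd.mul_right (dvd_pow hd (by norm_num)) _
      exact dvd_add (dvd_add d1 d2) (dvd_mul_left x _)
  refine ⟨by rw [hxx]; exact b6, ?_⟩
  by_contra hc
  push Not at hc
  have c1 : |x| ^ 3 * |x| ≤ |z| * |e| := mul_le_mul hc he (abs_nonneg x) (by positivity)
  have c2 : |x| ^ 2 * |y| ≤ |x| ^ 2 * (|x| ^ 2 - 1) :=
    mul_le_mul_of_nonneg_left (by omega) (by positivity)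
  nlinarith

lemma small_dec : ∀ x ∈ ({1, -1} : Finset ℤ), ∀ y ∈ Finset.Icc (-2 : ℤ) 2,
    ∀ z ∈ Finset.Icc (-3 : ℤ) 3, x ^ 2 * y + y ^ 2 * z + z ^ 2 * x = 1 →
    (x, y, z) = (0, 1, 1) ∨ (x, y, z) = (0, -1, 1) ∨ (x, y, z) = (1, 0, 1) ∨
    (x, y, z) = (1, 0, -1) ∨ (x, y, z) = (1, 1, 0) ∨ (x, y, z) = (1, 1, -1) ∨
    (x, y, z) = (1, -1, 1) ∨ (x, y, z) = (1, -1, -2) ∨ (x, y, z) = (-1, 1, 0) ∨
    (x, y, z) = (-1, 1, 1) ∨ (x, y, z) = (-1, -2, 1) ∨ (x, y, z) = (-1, -2, 3) := by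
  decide +kernel

/-- the solutions with `|x| ≤ 1` -/
lemma small {x y z : ℤ} (h : x ^ 2 * y + y ^ 2 * z + z ^ 2 * x = 1) (hx : |x| ≤ 1) :
    (x, y, z) ∈ ({(0, 1, 1), (0, -1, 1), (1, 0, 1), (1, 0, -1), (1, 1, 0), (1, 1, -1), (1, -1, 1),
      (1, -1, -2), (-1, 1, 0), (-1, 1, 1), (-1, -2, 1), (-1, -2, 3)} : Set (ℤ × ℤ × ℤ)) := by
  simp only [Set.mem_insert_iff, Set.mem_singleton_iff]
  have hx2 := abs_le.mp hx
  rcases eq_or_ne x 0 with h0 | h0
  · subst h0
    have h1 : y ^ 2 * z = 1 := by linarith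
    have h2 : y ∣ 1 := ⟨y * z, by linear_combination (-1) * h1⟩
    have hz : z = 1 := by
      rcases Int.isUnit_iff.mp (isUnit_of_dvd_one h2) with h3 | h3 <;> rw [h3] at h1 <;> linarith
    rcases Int.isUnit_iff.mp (isUnit_of_dvd_one h2) with h3 | h3
    · left
      rw [h3, hz]
    · right
      left
      rw [h3, hz]
  · have hxx : x = 1 ∨ x = -1 := by omega
    have hsq : x ^ 2 = 1 := by rcases hxx with h | h <;> rw [h] <;> norm_num
    have hy : |y| ≤ 2 ∧ |z| ≤ 3 := by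
      obtain ⟨e, hee⟩ : ∃ e, e = y ^ 2 + x * z := ⟨_, rfl⟩
      have h1 : z * e = 1 - y := by
        rw [hee]
        have : x ^ 2 * y = y := by rw [hsq, one_mul]
        linear_combination h - this
      rcases eq_or_ne e 0 with he | he
      · rw [he] at h1
        have hy1 : y = 1 := by linarith
        rw [he, hy1] at hee
        have : |z| = 1 := by
          have hz : x * z = -1 := by linarith
          have := congrArg abs hz
          rw [abs_mul] at this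
          have hxa : |x| = 1 := by rcases hxx with h | h <;> rw [h] <;> norm_num
          rw [hxa, one_mul] at this
          rw [this]
          norm_num
        rw [this, hy1]
        norm_num
      · rcases eq_or_ne z 0 with hz | hz
        · rw [hz] at h1 ⊢
          have hy1 : y = 1 := by linarith
          rw [hy1]
          norm_num
        · have b1 : 1 ≤ |z| := Int.one_le_abs hz
          have b2 : 1 ≤ |e| := Int.one_le_abs he
          have b3 : |z| * |e| ≤ |y| + 1 := by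
            rw [← abs_mul, h1]
            calc |1 - y| ≤ |(1 : ℤ)| + |y| := abs_sub _ _
              _ = |y| + 1 := by norm_num; ring
          have b4 : |y| ^ 2 ≤ |e| + |z| := by
            rw [sq_abs]
            have : y ^ 2 = e - x * z := by rw [hee]; ring
            rw [this]
            calc e - x * z ≤ |e - x * z| := le_abs_self _
              _ ≤ |e| + |x * z| := abs_sub _ _
              _ = |e| + |z| := by
                rw [abs_mul]
                have hxa : |x| = 1 := by rcases hxx with h | h <;> rw [h] <;> norm_num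
                rw [hxa, one_mul]
          have hy0 : 0 ≤ |y| := abs_nonneg y
          have b5 : |y| ^ 2 ≤ |y| + 2 := by
            nlinarith [mul_nonneg (sub_nonneg.mpr b1) (sub_nonneg.mpr b2)]
          have b6 : |y| ≤ 2 := by nlinarith
          exact ⟨b6, by nlinarith⟩
    exact small_dec x (by rcases hxx with h | h <;> rw [h] <;> simp) y
      (Finset.mem_Icc.mpr (abs_le.mp hy.1)) z (Finset.mem_Icc.mpr (abs_le.mp hy.2)) h

/-- a coordinate of absolute value at most `B`, `B ≥ 3`, bounds the two others by `B ^ 3` -/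
lemma box {x y z B : ℤ} (h : x ^ 2 * y + y ^ 2 * z + z ^ 2 * x = 1) (hB : 3 ≤ B)
    (hx : |x| ≤ B) : |x| ≤ B ^ 3 ∧ |y| ≤ B ^ 3 ∧ |z| ≤ B ^ 3 := by
  have hB1 : B ≤ B ^ 3 := by nlinarith [sq_nonneg B]
  have hB2 : B ^ 2 ≤ B ^ 3 := by nlinarith [sq_nonneg B]
  refine ⟨by linarith, ?_⟩
  rcases le_or_gt 2 |x| with h2 | h2
  · obtain ⟨a1, a2⟩ := bounds h h2
    have a3 : |x| ^ 2 ≤ B ^ 2 := pow_le_pow_left₀ (abs_nonneg x) hx 2
    have a4 : |x| ^ 3 ≤ B ^ 3 := pow_le_pow_left₀ (abs_nonneg x) hx 3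
    rw [sq_abs] at a3
    constructor <;> linarith
  · have h3 := small h (by omega)
    simp only [Set.mem_insert_iff, Set.mem_singleton_iff, Prod.mk.injEq] at h3
    have hB3 : 3 ≤ B ^ 3 := by linarith
    rcases h3 with h | h | h | h | h | h | h | h | h | h | h | h <;>
      obtain ⟨_, h4, h5⟩ := h <;> rw [h4, h5] <;> constructor <;> norm_num <;> linarith

lemma box_finite (C : ℤ) : {p : ℤ × ℤ × ℤ | |p.1| ≤ C ∧ |p.2.1| ≤ C ∧ |p.2.2| ≤ C}.Finite := by
  apply Set.Finite.subset ((Set.finite_Icc (-C) C).prod ((Set.finite_Icc (-C) C).prod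
    (Set.finite_Icc (-C) C)))
  intro p hp
  simp only [Set.mem_ofPred_eq] at hp
  simp only [Set.mem_prod, Set.mem_Icc]
  exact ⟨abs_le.mp hp.1, abs_le.mp hp.2.1, abs_le.mp hp.2.2⟩

theorem finite_min (B : ℤ) : {p : ℤ × ℤ × ℤ |
    p.1 ^ 2 * p.2.1 + p.2.1 ^ 2 * p.2.2 + p.2.2 ^ 2 * p.1 = 1 ∧
      (|p.1| ≤ B ∨ |p.2.1| ≤ B ∨ |p.2.2| ≤ B)}.Finite := by
  apply Set.Finite.subset (box_finite ((max B 3) ^ 3))
  rintro ⟨x, y, z⟩ ⟨h, hc⟩
  simp only at h hc
  simp only [Set.mem_ofPred_eq]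
  have hM : 3 ≤ max B 3 := le_max_right _ _
  rcases hc with hc | hc | hc
  · exact box h hM (hc.trans (le_max_left _ _))
  · have := box (x := y) (y := z) (z := x) (by linarith) hM (hc.trans (le_max_left _ _))
    exact ⟨this.2.2, this.1, this.2.1⟩
  · have := box (x := z) (y := x) (z := y) (by linarith) hM (hc.trans (le_max_left _ _))
    exact ⟨this.2.1, this.2.2, this.1⟩

/-- the largest coordinate is less than the cube of the smallest -/
lemma max_lt_min {x y z : ℤ} (h : x ^ 2 * y + y ^ 2 * z + z ^ 2 * x = 1)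
    (hm : 2 ≤ min (min |x| |y|) |z|) :
    max (max |x| |y|) |z| < (min (min |x| |y|) |z|) ^ 3 := by
  obtain ⟨⟨hx, hy⟩, hz⟩ : (2 ≤ |x| ∧ 2 ≤ |y|) ∧ 2 ≤ |z| := by
    rwa [le_min_iff, le_min_iff] at hm
  obtain ⟨a1, a2⟩ := bounds h hx
  obtain ⟨b1, b2⟩ := bounds (x := y) (y := z) (z := x) (by linarith) hy
  obtain ⟨c1, c2⟩ := bounds (x := z) (y := x) (z := y) (by linarith) hz
  have key : ∀ t : ℤ, 2 ≤ |t| → |t| < |t| ^ 3 ∧ t ^ 2 ≤ |t| ^ 3 := by
    intro t ht
    rw [← sq_abs t]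
    constructor <;> nlinarith [sq_nonneg |t|]
  have kx := key x hx
  have ky := key y hy
  have kz := key z hz
  rcases min_choice (min |x| |y|) |z| with e1 | e1
  · rcases min_choice |x| |y| with e2 | e2
    · rw [e1, e2]
      exact max_lt (max_lt kx.1 (by linarith)) a2
    · rw [e1, e2]
      exact max_lt (max_lt b2 ky.1) (by linarith)
  · rw [e1]
    exact max_lt (max_lt (by linarith) c2) kz.1

theorem result :
    (∀ x y z : ℤ, x ^ 2 * y + y ^ 2 * z + z ^ 2 * x = 1 →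
      (2 ≤ |x| → |y| < x ^ 2 ∧ |z| < |x| ^ 3) ∧
      (|x| ≤ 1 → (x, y, z) ∈ ({(0, 1, 1), (0, -1, 1), (1, 0, 1), (1, 0, -1), (1, 1, 0),
        (1, 1, -1), (1, -1, 1), (1, -1, -2), (-1, 1, 0), (-1, 1, 1), (-1, -2, 1),
        (-1, -2, 3)} : Set (ℤ × ℤ × ℤ))) ∧
      (2 ≤ min (min |x| |y|) |z| →
        max (max |x| |y|) |z| < (min (min |x| |y|) |z|) ^ 3)) ∧
    ({p : ℤ × ℤ × ℤ | p.1 ^ 2 * p.2.1 + p.2.1 ^ 2 * p.2.2 + p.2.2 ^ 2 * p.1 = 1}.Infinite ↔
      ∀ B : ℤ, ∃ x y z : ℤ, x ^ 2 * y + y ^ 2 * z + z ^ 2 * x = 1 ∧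
        B < |x| ∧ B < |y| ∧ B < |z|) := by
  refine ⟨fun x y z h => ⟨bounds h, small h, max_lt_min h⟩, ?_⟩
  constructor
  · intro hinf B
    by_contra hc
    push Not at hc
    apply hinf
    apply Set.Finite.subset (finite_min B)
    rintro ⟨x, y, z⟩ h
    simp only [Set.mem_ofPred_eq] at h ⊢
    refine ⟨h, ?_⟩
    by_contra hd
    push Not at hd
    have := hc x y z h hd.1 hd.2.1
    omega
  · intro hB hfin
    obtain ⟨C, hC⟩ : ∃ C : ℤ, ∀ p ∈ {p : ℤ × ℤ × ℤ |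
        p.1 ^ 2 * p.2.1 + p.2.1 ^ 2 * p.2.2 + p.2.2 ^ 2 * p.1 = 1}, |p.1| ≤ C := by
      obtain ⟨C, hC⟩ := (hfin.image fun p : ℤ × ℤ × ℤ => |p.1|).bddAbove
      exact ⟨C, fun p hp => hC ⟨p, hp, rfl⟩⟩
    obtain ⟨x, y, z, h, h1, _, _⟩ := hB C
    have := hC (x, y, z) h
    simp only at this
    omega

end Pool.Agent.Results.MP_e005ea_nt.CoordinateBounds
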